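import Pool.Agent.Run7.h245.DI.Iface
import Pool.Agent.Run7.h13.SR.CQC

/-!
# Project DI (helper245), piece CQN (helper834): the symmetric matrices over a finite field with
characteristic polynomial `x h(x)` which are not distinguished

The proof is the one of `Pool/Agent/Run7/h13/SR/CQC.lean` (helper13), second class.
-/

set_option autoImplicit false
set_option linter.all false

open Polynomial Matrix

namespace Pool.Agent.Run7.h834.DI

namespace CQN

open Pool.Agent.N352.PJ (Mt Jm)
open Pool.Agent.N783.PQ (chp form Dist)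
open Pool.Agent.N42.PF (Lp Lp_apply sa_pow' sa_poly' Lp_move sq_of_norm det_Jm)
open Pool.Agent.N87.PJ (J_mul_apply)
open Pool.Agent.Run7.h13.SR.CQC

variable {g : ℕ} {F : Type} [Field F]

/-- **piece CQN** -/
theorem mainN [Finite F] (hg : 1 ≤ g) (h2 : (2 : F) ≠ 0) (h : F[X]) (hm : h.Monic)
    (hi : Irreducible h) (hd : h.natDegree = 2 * g) {A : Mt g F} (hA : A.IsSymm) {x : F}
    (hx : x ≠ 0) (hdet : A.det = (-1) ^ g * x ^ 2) :
    2 * Nat.card {B : Mt g F // B.IsSymm ∧ chp A B = X * h ∧ ¬ Dist A B} ≤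
      Nat.card F ^ (g * (2 * g + 1)) := by
  classical
  have hcop : IsCoprime (X : F[X]) h := by
    rw [Irreducible.coprime_iff_not_dvd Polynomial.irreducible_X]
    intro hdvd
    obtain ⟨c, hc'⟩ := hdvd
    have hX : (X : F[X]) ≠ 0 := X_ne_zero
    rcases hi.isUnit_or_isUnit hc' with h' | h'
    · exact Polynomial.not_isUnit_X h'
    · have h3 := natDegree_eq_zero_of_isUnit h'
      have hc0 : c ≠ 0 := by
        rintro rfl
        rw [mul_zero] at hc'
        exact hi.ne_zero hc'
      rw [hc', natDegree_mul hX hc0, natDegree_X, h3] at hd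
      omega
  obtain ⟨u, v, huv⟩ := hcop
  have hone : ((-1 : F) ^ g) * (-1) ^ g = 1 := by rw [← mul_pow]; simp
  have hA0 : A.det ≠ 0 := by
    rw [hdet]
    refine mul_ne_zero ?_ (pow_ne_zero 2 hx)
    intro h
    rw [h, zero_mul] at hone
    exact zero_ne_one hone
  have hu : IsUnit A.det := isUnit_iff_ne_zero.2 hA0
  haveI : Fact (Irreducible h) := ⟨hi⟩
  have hfm : (X * h).Monic := monic_X.mul hm
  have hfd : (X * h).natDegree = 2 * g + 1 := by
    rw [natDegree_mul X_ne_zero hm.ne_zero, natDegree_X, hd]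
    omega
  haveI : FiniteDimensional F (AdjoinRoot (X * h)) := (AdjoinRoot.powerBasis' hfm).finite
  haveI : FiniteDimensional F (AdjoinRoot h) := (AdjoinRoot.powerBasis' hm).finite
  haveI : Finite (AdjoinRoot h) := Module.finite_of_finite F
  let ψ : AdjoinRoot (X * h) ≃ₐ[F] F × AdjoinRoot h := AlgEquiv.ofBijective (ps0 h) (ps0_bij hm huv)
  have hψ : ∀ c, ψ c = ps0 h c := fun c => rfl
  have hψm : ∀ p, ψ (AdjoinRoot.mk (X * h) p) = (p.eval 0, AdjoinRoot.mk h p) := fun p => ps0_mk p
  have hnorm : ∀ c : AdjoinRoot (X * h), Algebra.norm F c = (ψ c).1 * Algebra.norm F (ψ c).2 := by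
    intro c
    rw [← norm_pr]
    exact (Algebra.norm_eq_of_algEquiv ψ c).symm
  -- the two nonsquares
  haveI := Fintype.ofFinite F
  haveI := Fintype.ofFinite (AdjoinRoot h)
  have hcF : ringChar F ≠ 2 := by
    intro h'
    apply h2
    have := ringChar.Nat.cast_ringChar (R := F)
    rw [h'] at this
    exact_mod_cast this
  have h2K : (2 : AdjoinRoot h) ≠ 0 := by
    intro h'
    apply h2
    apply (algebraMap F (AdjoinRoot h)).injective
    rw [map_ofNat, map_zero, h']
  have hcK : ringChar (AdjoinRoot h) ≠ 2 := by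
    intro h'
    apply h2K
    have := ringChar.Nat.cast_ringChar (R := AdjoinRoot h)
    rw [h'] at this
    exact_mod_cast this
  obtain ⟨n₁, hn₁⟩ := FiniteField.exists_nonsquare hcF
  obtain ⟨n₂, hn₂⟩ := FiniteField.exists_nonsquare hcK
  have hn₁0 : n₁ ≠ 0 := by
    rintro rfl
    exact hn₁ IsSquare.zero
  have hn₂0 : n₂ ≠ 0 := by
    rintro rfl
    exact hn₂ IsSquare.zero
  obtain ⟨c₀, hc₀⟩ : ∃ c₀, ψ c₀ = (n₁, n₂) := ψ.surjective _
  -- the two classes
  let s : AdjoinRoot (X * h) → ℕ → F := fun c m => tp g hfm (c * AdjoinRoot.root (X * h) ^ m)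
  have hcl : ∀ c, Algebra.norm F c ≠ 0 →
      2 * Nat.card {B : Mt g F // B.IsSymm ∧ chp A B = X * h ∧
        ∃ ξ : Fin (2 * g + 1) → F, ∀ m, form A B m ξ = s c m} ≤
      Nat.card F ^ (g * (2 * g + 1)) := by
    intro c hc
    refine card_class h2 hg huv hA hA0 (s c) ?_
    show (Matrix.of fun i j : Fin (2 * g + 1) =>
      tp g hfm (c * AdjoinRoot.root (X * h) ^ ((i : ℕ) + j))).det ≠ 0
    rw [tp_det hfm hfd]
    refine mul_ne_zero ?_ hc
    intro h'
    rw [h', zero_mul] at hone
    exact zero_ne_one hone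
  have hc1 := hcl 1 (by rw [map_one]; exact one_ne_zero)
  have hc2 := hcl c₀ (by
    rw [hnorm, hc₀]
    exact mul_ne_zero hn₁0 (by rwa [Ne, Algebra.norm_eq_zero_iff]))
  -- every `B` is in one of the two classes
  have hall : ∀ B : Mt g F, B.IsSymm → chp A B = X * h →
      (∃ ξ : Fin (2 * g + 1) → F, ∀ m, form A B m ξ = s 1 m) ∨
      ∃ ξ : Fin (2 * g + 1) → F, ∀ m, form A B m ξ = s c₀ m := by
    intro B hB hc
    obtain ⟨T, hT⟩ : ∃ T, T = A⁻¹ * B := ⟨_, rfl⟩
    have hTA : Tᵀ * A = A * T := by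
      rw [hT]
      exact sa hA hu hB
    have hcT : T.charpoly = X * h := by
      rw [hT]
      exact hc
    have hf : aeval T (X * h) = 0 := annih hcT
    -- the idempotents
    have hid : ∀ e : F[X], aeval T (e * e) = aeval T e → aeval T e ≠ 0 →
        ∃ w : Fin (2 * g + 1) → F, Lp A T w e ≠ 0 := by
      intro e _ he
      have h1 : (A * aeval T e).IsSymm := by
        show (A * aeval T e)ᵀ = _
        rw [Matrix.transpose_mul, hA.eq, sa_poly' hTA]
      have h3 : A * aeval T e ≠ 0 := by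
        intro h0
        apply he
        have h4 := congrArg (A⁻¹ * ·) h0
        simp only [← Matrix.mul_assoc, Matrix.nonsing_inv_mul _ hu, Matrix.one_mul,
          Matrix.mul_zero] at h4
        exact h4
      exact aniso h2 h1 h3
    have hE1 : aeval T ((v * h) * (v * h)) = aeval T (v * h) := by
      have h1 : (v * h) * (v * h) = v * h - (u * v) * (X * h) := by
        have : (v * h) * (v * h) = (v * h) * (u * X + v * h) - (u * v) * (X * h) := by ring
        rw [this, huv, mul_one]
      rw [h1, map_sub, map_mul (aeval T) (u * v), hf, mul_zero, sub_zero]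
    have hE2 : aeval T ((u * X) * (u * X)) = aeval T (u * X) := by
      have h1 : (u * X) * (u * X) = u * X - (u * v) * (X * h) := by
        have : (u * X) * (u * X) = (u * X) * (u * X + v * h) - (u * v) * (X * h) := by ring
        rw [this, huv, mul_one]
      rw [h1, map_sub, map_mul (aeval T) (u * v), hf, mul_zero, sub_zero]
    have hE12 : aeval T ((v * h) * (u * X)) = 0 := by
      have h1 : (v * h) * (u * X) = (u * v) * (X * h) := by ring
      rw [h1, map_mul, hf, mul_zero]
    obtain ⟨w₁, hw₁⟩ := hid (v * h) hE1 (ne1 hcT huv)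
    obtain ⟨w₂, hw₂⟩ := hid (u * X) hE2 (ne2 hcT hg huv)
    obtain ⟨z, hz⟩ : ∃ z, z = aeval T (v * h) *ᵥ w₁ + aeval T (u * X) *ᵥ w₂ := ⟨_, rfl⟩
    have hproj : ∀ e : F[X], aeval T (e * e) = aeval T e → ∀ y : Fin (2 * g + 1) → F,
        Lp A T y e = Lp A T (aeval T e *ᵥ y) 1 := by
      intro e he y
      have h1 := Lp_move (A := A) (T := T) y hTA 1 e
      have h3 : Lp A T (aeval T e *ᵥ y) 1 = Lp A T y (e * 1 * e) := by
        rw [← h1, Lp_apply]
      rw [h3, mul_one, Lp_apply, Lp_apply, he]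
    have hz1 : aeval T (v * h) *ᵥ z = aeval T (v * h) *ᵥ w₁ := by
      rw [hz, Matrix.mulVec_add, Matrix.mulVec_mulVec, Matrix.mulVec_mulVec, ← map_mul, ← map_mul,
        hE1, hE12, Matrix.zero_mulVec, add_zero]
    have hz2 : aeval T (u * X) *ᵥ z = aeval T (u * X) *ᵥ w₂ := by
      rw [hz, Matrix.mulVec_add, Matrix.mulVec_mulVec, Matrix.mulVec_mulVec, ← map_mul, ← map_mul,
        hE2, mul_comm (u * X) (v * h), hE12, Matrix.zero_mulVec, zero_add]
    have hL1 : Lp A T z (v * h) ≠ 0 := by
      rw [hproj _ hE1, hz1, ← hproj _ hE1]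
      exact hw₁
    have hL2 : Lp A T z (u * X) ≠ 0 := by
      rw [hproj _ hE2, hz2, ← hproj _ hE2]
      exact hw₂
    -- the element `c`
    let ℓ : AdjoinRoot (X * h) →ₗ[F] F := (Lp A T z).comp (AdjoinRoot.modByMonicHom hfm)
    have hℓ : ∀ p : F[X], ℓ (AdjoinRoot.mk (X * h) p) = Lp A T z p := by
      intro p
      show Lp A T z (AdjoinRoot.modByMonicHom hfm (AdjoinRoot.mk (X * h) p)) = _
      rw [AdjoinRoot.modByMonicHom_mk]
      have h3 := modByMonic_add_div p (X * h)
      conv_rhs => rw [← h3]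
      rw [map_add]
      have h4 : Lp A T z ((X * h) * (p /ₘ (X * h))) = 0 := by
        rw [Lp_apply, map_mul (aeval T) (X * h), hf, zero_mul, mul_zero, Matrix.zero_mulVec,
          dotProduct_zero]
      rw [h4, add_zero]
    obtain ⟨c, hc'⟩ := tp_exists hfm hfd ℓ
    have hcp : ∀ p : F[X], tp g hfm (c * AdjoinRoot.mk (X * h) p) = Lp A T z p := fun p => by
      rw [hc', hℓ]
    have hc10 : (ψ c).1 ≠ 0 := by
      intro h0
      apply hL1
      rw [← hcp]
      have h1 : c * AdjoinRoot.mk (X * h) (v * h) = 0 := by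
        apply ψ.injective
        rw [map_mul, hψm, map_zero]
        ext
        · show (ψ c).1 * _ = 0
          rw [h0, zero_mul]
        · show (ψ c).2 * AdjoinRoot.mk h (v * h) = 0
          rw [map_mul, AdjoinRoot.mk_self, mul_zero, mul_zero]
      rw [h1, map_zero]
    have hc20 : (ψ c).2 ≠ 0 := by
      intro h0
      apply hL2
      rw [← hcp]
      have h1 : c * AdjoinRoot.mk (X * h) (u * X) = 0 := by
        apply ψ.injective
        rw [map_mul, hψm, map_zero]
        ext
        · show (ψ c).1 * (u * X).eval 0 = 0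
          rw [eval_mul, eval_X, mul_zero, mul_zero]
        · show (ψ c).2 * _ = 0
          rw [h0, zero_mul]
      rw [h1, map_zero]
    -- the norm
    have hMG : (MM T z)ᵀ * A * MM T z = Matrix.of fun i j : Fin (2 * g + 1) =>
        tp g hfm (c * AdjoinRoot.root (X * h) ^ ((i : ℕ) + j)) := by
      ext i j
      have h1 := MM_gram hTA z 0 i j
      rw [pow_zero, Matrix.mul_one, add_zero] at h1
      have e1 : AdjoinRoot.root (X * h) ^ ((i : ℕ) + j) =
          AdjoinRoot.mk (X * h) (X ^ ((i : ℕ) + (j : ℕ))) := by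
        rw [map_pow, AdjoinRoot.mk_X]
      rw [h1, Matrix.of_apply, e1, hcp, Lp_apply, map_pow, aeval_X]
    have hN : Algebra.norm F c = (x * (MM T z).det) ^ 2 := by
      have h3 := congrArg Matrix.det hMG
      rw [tp_det hfm hfd, Matrix.det_mul, Matrix.det_mul, Matrix.det_transpose, hdet] at h3
      calc Algebra.norm F c = ((-1) ^ g * (-1) ^ g) * Algebra.norm F c := by rw [hone, one_mul]
        _ = (-1) ^ g * ((-1) ^ g * Algebra.norm F c) := by ring
        _ = (-1) ^ g * ((MM T z).det * ((-1) ^ g * x ^ 2) * (MM T z).det) := by rw [h3]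
        _ = ((-1) ^ g * (-1) ^ g) * (x * (MM T z).det) ^ 2 := by ring
        _ = _ := by rw [hone, one_mul]
    rw [hnorm] at hN
    -- from squares to the vector
    have hfin : ∀ (c' t : AdjoinRoot (X * h)), (ψ t).1 ≠ 0 → (ψ t).2 ≠ 0 → c = c' * (t * t) →
        ∃ ξ : Fin (2 * g + 1) → F, ∀ m, form A B m ξ = s c' m := by
      intro c' t ht1 ht2 hct
      obtain ⟨t', ht'⟩ : ∃ t', t * t' = 1 := by
        refine ⟨ψ.symm ((ψ t).1⁻¹, (ψ t).2⁻¹), ?_⟩
        apply ψ.injective
        rw [map_mul, AlgEquiv.apply_symm_apply, map_one]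
        ext
        · exact mul_inv_cancel₀ ht1
        · exact mul_inv_cancel₀ ht2
      obtain ⟨r, hr⟩ := AdjoinRoot.mk_surjective t'
      refine ⟨aeval T r *ᵥ z, fun m => ?_⟩
      have h3 : form A B m (aeval T r *ᵥ z) = Lp A T z (r * X ^ m * r) := by
        rw [← Lp_move z hTA, map_pow, aeval_X, hT]
        rfl
      have e9 : AdjoinRoot.mk (X * h) (r * X ^ m * r) =
          t' * AdjoinRoot.root (X * h) ^ m * t' := by
        rw [map_mul, map_mul, hr, map_pow, AdjoinRoot.mk_X]
      rw [h3, ← hcp, e9, hct]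
      show _ = tp g hfm (c' * AdjoinRoot.root (X * h) ^ m)
      congr 1
      calc c' * (t * t) * (t' * AdjoinRoot.root (X * h) ^ m * t') =
          c' * AdjoinRoot.root (X * h) ^ m * (t * t') * (t * t') := by ring
        _ = _ := by rw [ht', mul_one, mul_one]
    by_cases hsq : IsSquare (ψ c).1
    · left
      obtain ⟨a, ha⟩ := hsq
      have ha0 : a ≠ 0 := by
        rintro rfl
        rw [mul_zero] at ha
        exact hc10 ha
      have h3 : Algebra.norm F (ψ c).2 = (x * (MM T z).det / a) ^ 2 := by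
        rw [ha] at hN
        rw [div_pow, eq_div_iff (pow_ne_zero 2 ha0)]
        linear_combination hN
      obtain ⟨b, hb⟩ := sq_of_norm h2 hc20 h3
      have hb0 : b ≠ 0 := by
        rintro rfl
        rw [mul_zero] at hb
        exact hc20 hb.symm
      obtain ⟨t, ht⟩ : ∃ t, ψ t = (a, b) := ψ.surjective _
      refine hfin 1 t (by rw [ht]; exact ha0) (by rw [ht]; exact hb0) ?_
      apply ψ.injective
      rw [one_mul, map_mul, ht]
      ext
      · exact ha
      · exact hb.symm
    · right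
      have hsq2 : ¬ IsSquare (ψ c).2 := by
        rintro ⟨b, hb⟩
        apply hsq
        have hb0 : Algebra.norm F b ≠ 0 := by
          rw [Ne, Algebra.norm_eq_zero_iff]
          rintro rfl
          rw [mul_zero] at hb
          exact hc20 hb
        rw [hb, map_mul] at hN
        refine ⟨x * (MM T z).det / Algebra.norm F b, ?_⟩
        field_simp
        linear_combination hN
      obtain ⟨a, ha⟩ := nonsq hsq hn₁
      obtain ⟨b, hb⟩ := nonsq hsq2 hn₂
      have ha0 : a ≠ 0 := by
        rintro rfl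
        rw [mul_zero, mul_zero] at ha
        exact hc10 ha
      have hb0 : b ≠ 0 := by
        rintro rfl
        rw [mul_zero, mul_zero] at hb
        exact hc20 hb
      obtain ⟨t, ht⟩ : ∃ t, ψ t = (a, b) := ψ.surjective _
      refine hfin c₀ t (by rw [ht]; exact ha0) (by rw [ht]; exact hb0) ?_
      apply ψ.injective
      rw [map_mul, map_mul, ht, hc₀]
      ext
      · exact ha
      · exact hb
  -- the count
  haveI : Finite (Mt g F) := inferInstance
  have hdist : ∀ B : Mt g F, (∃ ξ : Fin (2 * g + 1) → F, ∀ m, form A B m ξ = s 1 m) →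
      Dist A B := by
    rintro B ⟨ξ, hξ⟩
    refine ⟨ξ, fun m hm' => ?_⟩
    rw [hξ m]
    show tp g hfm (1 * AdjoinRoot.root (X * h) ^ m) = _
    rw [one_mul, tp_pow hfm hfd hm']
  refine le_trans (Nat.mul_le_mul_left 2 ?_) hc2
  refine Nat.card_le_card_of_injective
    (fun B : {B : Mt g F // B.IsSymm ∧ chp A B = X * h ∧ ¬ Dist A B} =>
      (⟨B.1, B.2.1, B.2.2.1, (hall B.1 B.2.1 B.2.2.1).resolve_left
        fun hh => B.2.2.2 (hdist B.1 hh)⟩ :
        {B : Mt g F // B.IsSymm ∧ chp A B = X * h ∧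
          ∃ ξ : Fin (2 * g + 1) → F, ∀ m, form A B m ξ = s c₀ m})) ?_
  intro B B' hBB
  have h9 := Subtype.ext_iff.1 hBB
  exact Subtype.ext h9

end CQN

/-- **piece CQN** -/
theorem cqn : Pool.Agent.Run7.h245.DI.S_CQN := by
  intro g κ _ _ hg h2 h hm hi hd A hA hdet
  obtain ⟨x, hx, hdet⟩ := hdet
  exact CQN.mainN hg h2 h hm hi hd hA hx hdet

end Pool.Agent.Run7.h834.DI
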