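import Pool.Agent.Run7.h245.DI.Iface
import Pool.Agent.N456.PF.Pb
import Pool.Agent.N42.PF.CQ
import Pool.Agent.N490.PF.Pts
import Pool.Agent.Run7.h13.SR.CQC

/-!
# Project DI (helper245), pieces PBN, PBN0 (helper834): pairs of symmetric matrices, not
distinguished at a subset of the primes

Adapted from `Pool/Agent/Run7/h13/SR/PBN.lean` (helper13), itself adapted from `Pool/Agent/N456/PF/Pb.lean` (helper456).
-/

set_option autoImplicit false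
set_option linter.all false

open Polynomial Matrix NumberField
open scoped Classical

namespace Pool.Agent.Run7.h834.DI

open Pool.Agent.N352.PJ (Mt Typ dd)
open Pool.Agent.N783.PQ (chp form Dist Gap Mid Deep eA eB eU uu)
open Pool.Agent.N783.PF
open Pool.Agent.Run7.h245.DI (XsetN LBadN S_CQN S_PBN S_PBN0)
open Pool.Agent.Run7.h245.SR (S_CQC)
open Pool.Agent.N951.PQ (P2 mem_P2 card_P2 sum_P2 sum_w card_erase)
open Pool.Agent.N456.PF (card_fib absNorm_sp sp_ne_bot Cst pts exists_p0 mat_ext adj_symm PP mem_PP ne_bot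
  prod_PP mem_sp crt finq not_mem)

namespace PBN

section fld

variable {F : Type} [Field F] [NumberField F]

section triv

variable {g N c : ℕ} {w : Fin (2 * g + 1) → ℤ} {S Cs : Finset ℕ} {𝔮 : ℕ → Ideal (𝓞 F)}
  {P : ℕ → (𝓞 F)[X]} {C₀ : ℕ}

lemma toX {A B : Mt g (𝓞 F)} (h : XsetN g N c w S Cs 𝔮 P A B) : Xset g N c w ∅ 𝔮 P A B :=
  ⟨h.box, fun q hq => absurd hq (Finset.notMem_empty q), fun q hq => absurd hq (Finset.notMem_empty q)⟩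

lemma det_ne {A B : Mt g (𝓞 F)} (h : XsetN g N c w S Cs 𝔮 P A B) : A.det ≠ 0 :=
  Pool.Agent.N456.PF.det_ne (toX h)

/-- for fixed `A` -/
lemma fiber_inj {A : Mt g (𝓞 F)} {p0 : Fin (2 * g + 1) × Fin (2 * g + 1)} (hA : A.IsSymm)
    (hp0 : p0 ∈ P2 g) (h0 : A.adjugate p0.1 p0.2 ≠ 0) {B B' : Mt g (𝓞 F)}
    (hB : XsetN g N c w S Cs 𝔮 P A B) (hB' : XsetN g N c w S Cs 𝔮 P A B')
    (heq : ∀ p ∈ (P2 g).erase p0, B p.1 p.2 = B' p.1 p.2) : B = B' :=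
  mat_ext (adj_symm hA) hB.box.sB hB'.box.sB hB.box.tr hB'.box.tr hp0 h0 heq

/-- the pairs form a finite set -/
lemma fin_pairs (hC : Cst F C₀) :
    {p : Mt g (𝓞 F) × Mt g (𝓞 F) | XsetN g N c w S Cs 𝔮 P p.1 p.2}.Finite :=
  (Pool.Agent.N456.PF.fin_pairs (g := g) (N := N) (c := c) (w := w) (S := ∅) (𝔮 := 𝔮) (P := P) hC).subset
    fun p hp => toX hp

/-- the number of the matrices `A` -/
lemma card_A (hC : Cst F C₀) (s : Finset (Mt g (𝓞 F)))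
    (hs : ∀ A ∈ s, ∃ B, XsetN g N c w S Cs 𝔮 P A B) :
    s.card ≤ C₀ ^ (dd g + 1) * 2 ^ (Module.finrank ℚ F * c * (dd g + 1)) *
      2 ^ (Module.finrank ℚ F * eA g w) := by
  refine Pool.Agent.N456.PF.card_A (N := N) (c := c) (S := ∅) (𝔮 := 𝔮) (P := P) hC s fun A hA => ?_
  obtain ⟨B, hB⟩ := hs A hA
  exact ⟨B, toX hB⟩

/-- from the fibres to the pairs -/
lemma assemble (hC : Cst F C₀) {K M : ℕ}
    (hf : ∀ A : Mt g (𝓞 F), K * {B : Mt g (𝓞 F) | XsetN g N c w S Cs 𝔮 P A B}.ncard ≤ M) :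
    K * {p : Mt g (𝓞 F) × Mt g (𝓞 F) | XsetN g N c w S Cs 𝔮 P p.1 p.2}.ncard ≤
      M * (C₀ ^ (dd g + 1) * 2 ^ (Module.finrank ℚ F * c * (dd g + 1)) *
        2 ^ (Module.finrank ℚ F * eA g w)) := by
  have hfin := fin_pairs (g := g) (N := N) (c := c) (w := w) (S := S) (Cs := Cs) (𝔮 := 𝔮) (P := P) hC
  set s := hfin.toFinset with hs
  rw [Set.ncard_eq_toFinset_card _ hfin, ← hs, Finset.card_eq_sum_card_image Prod.fst s,
    Finset.mul_sum]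
  have h1 : ∀ A ∈ s.image Prod.fst, K * (s.filter (fun p => p.1 = A)).card ≤ M := by
    intro A hA
    refine le_trans (Nat.mul_le_mul_left _ ?_) (hf A)
    have hfinA : {B : Mt g (𝓞 F) | XsetN g N c w S Cs 𝔮 P A B}.Finite := by
      apply Set.Finite.subset (hfin.image Prod.snd)
      intro B hB
      exact ⟨(A, B), hB, rfl⟩
    rw [Set.ncard_eq_toFinset_card _ hfinA]
    apply Finset.card_le_card_of_injOn Prod.snd
    · intro p hp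
      rw [Finset.mem_coe, Finset.mem_filter, hs, Set.Finite.mem_toFinset] at hp
      rw [Finset.mem_coe, Set.Finite.mem_toFinset]
      have := hp.1
      rw [← hp.2]
      exact hp.1
    · intro p hp p' hp' heq
      rw [Finset.mem_coe, Finset.mem_filter] at hp hp'
      exact Prod.ext (hp.2.trans hp'.2.symm) heq
  refine (Finset.sum_le_sum h1).trans ?_
  rw [Finset.sum_const, smul_eq_mul, mul_comm]
  apply Nat.mul_le_mul_left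
  apply card_A (N := N) (c := c) (S := S) (Cs := Cs) (𝔮 := 𝔮) (P := P) hC
  intro A hA
  rw [Finset.mem_image] at hA
  obtain ⟨p, hp, rfl⟩ := hA
  rw [hs, Set.Finite.mem_toFinset] at hp
  exact ⟨p.2, hp⟩

end triv

end fld

section prime

variable {F : Type} [Field F] [NumberField F]

variable {g N c W : ℕ} {w : Fin (2 * g + 1) → ℤ} {S Cs : Finset ℕ} {𝔮 : ℕ → Ideal (𝓞 F)}
  {h P : ℕ → (𝓞 F)[X]} {C₀ : ℕ}

/-- The good matrices `B` modulo a prime over `q`. -/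
abbrev GP (g : ℕ) (Cs : Finset ℕ) (𝔮 : ℕ → Ideal (𝓞 F)) (P : ℕ → (𝓞 F)[X]) (A : Mt g (𝓞 F)) (q : ℕ)
    (𝔭 : Ideal (𝓞 F)) : Type :=
  {B : Mt g (𝓞 F ⧸ 𝔭) // B.IsSymm ∧ chp (rm 𝔭 A) B = rd 𝔭 (P q) ∧ (𝔭 = 𝔮 q → q ∈ Cs → ¬ Dist (rm 𝔭 A) B)}

lemma card_GP (h2 : S_CQN) (h3 : S_CQB) (h4 : S_CQC) (hg : 1 ≤ g) (hW : 2 ^ c + 1 ≤ W)
    (hS : GoodS g W S 𝔮 h P) {A : Mt g (𝓞 F)} (hA : A.IsSymm)
    (hd : ∃ x : 𝓞 F, x ≠ 0 ∧ A.det = (-1) ^ g * x ^ 2 ∧ Ideal.absNorm (Ideal.span {x}) ≤ 2 ^ c)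
    {q : ℕ} (hq : q ∈ S) {𝔭 : Ideal (𝓞 F)} (h𝔭 : 𝔭 ∈ PP F q) :
    (if 𝔭 = 𝔮 q ∧ q ∈ Cs then 2 else 1) * Nat.card (GP g Cs 𝔮 P A q 𝔭) ≤
      Ideal.absNorm 𝔭 ^ (g * (2 * g + 1)) := by
  obtain ⟨hp, hWq, _, h8, hram, hqp, hqm, hm, hdeg, hirr, hPm, hPd, hPt, hcg, hPi⟩ := hS q hq
  rw [mem_PP hp.ne_zero] at h𝔭
  haveI : 𝔭.IsPrime := h𝔭.1
  have hb : 𝔭 ≠ ⊥ := ne_bot hp.ne_zero h𝔭.2
  haveI : 𝔭.IsMaximal := Ideal.IsPrime.isMaximal inferInstance hb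
  haveI : Finite (𝓞 F ⧸ 𝔭) := finq hb
  have hcard : Ideal.absNorm 𝔭 = Nat.card (𝓞 F ⧸ 𝔭) := by
    rw [Ideal.absNorm_apply, Submodule.cardQuot_apply]
  have h2q : (2 : 𝓞 F ⧸ 𝔭) ≠ 0 := by
    intro h0
    have h1 : Ideal.Quotient.mk 𝔭 ((2 : ℕ) : 𝓞 F) = 0 := by
      rw [map_natCast]
      exact_mod_cast h0
    rw [Ideal.Quotient.eq_zero_iff_mem] at h1
    exact not_mem hp h𝔭.1 h𝔭.2 (by norm_num) (by
      have := hp.two_le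
      omega) h1
  obtain ⟨x, hx0, hdet, hnx⟩ := hd
  have hx : Ideal.Quotient.mk 𝔭 x ≠ 0 := by
    intro h0
    rw [Ideal.Quotient.eq_zero_iff_mem] at h0
    have h1 : (Ideal.absNorm (Ideal.span {x}) : 𝓞 F) ∈ 𝔭 :=
      (Ideal.span_singleton_le_iff_mem 𝔭).2 h0 (Ideal.absNorm_mem _)
    refine not_mem hp h𝔭.1 h𝔭.2 ?_ ?_ h1
    · rw [Ne, Ideal.absNorm_eq_zero_iff, Ideal.span_singleton_eq_bot]
      exact hx0
    · omega
  have hdet' : (rm 𝔭 A).det = (-1) ^ g * (Ideal.Quotient.mk 𝔭 x) ^ 2 := by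
    have h1 : (rm 𝔭 A).det = Ideal.Quotient.mk 𝔭 A.det := (RingHom.map_det _ _).symm
    rw [h1, hdet, map_mul, map_pow, map_pow, map_neg, map_one]
  letI : Field (𝓞 F ⧸ 𝔭) := Ideal.Quotient.field 𝔭
  rw [hcard]
  by_cases hc : 𝔭 = 𝔮 q
  · have hirr' : Irreducible (rd 𝔭 (h q)) := by
      rw [hc]
      exact hirr
    have e1 : rd 𝔭 (P q) = X * rd 𝔭 (h q) := by
      have e2 : (X : (𝓞 F ⧸ 𝔭)[X]) * rd 𝔭 (h q) = rd 𝔭 (X * h q) := by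
        rw [rd, rd, Polynomial.map_mul, map_X]
      rw [e2]
      ext j
      rw [coeff_map, coeff_map, ← sub_eq_zero, ← map_sub, Ideal.Quotient.eq_zero_iff_mem, hc]
      exact hcg j
    by_cases hqC : q ∈ Cs
    · rw [if_pos ⟨hc, hqC⟩]
      have e3 := h2 g (𝓞 F ⧸ 𝔭) hg h2q (rd 𝔭 (h q)) (hm.map _) hirr'
        (by rw [hm.natDegree_map, hdeg]) (rm 𝔭 A) (hA.map _) ⟨_, hx, hdet'⟩
      refine le_trans (Nat.mul_le_mul_left 2 ?_) e3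
      refine Nat.card_le_card_of_injective
        (fun B : GP g Cs 𝔮 P A q 𝔭 => (⟨B.1, B.2.1, by rw [← e1]; exact B.2.2.1, B.2.2.2 hc hqC⟩ :
          {B : Mt g (𝓞 F ⧸ 𝔭) // B.IsSymm ∧ chp (rm 𝔭 A) B = X * rd 𝔭 (h q) ∧ ¬ Dist (rm 𝔭 A) B}))
        ?_
      intro B B' hBB
      have h9 := Subtype.ext_iff.1 hBB
      exact Subtype.ext h9
    · rw [if_neg (fun hh => hqC hh.2), one_mul]
      have e3 := h4 g (𝓞 F ⧸ 𝔭) hg h2q (rd 𝔭 (h q)) (hm.map _) hirr'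
        (by rw [hm.natDegree_map, hdeg]) (rm 𝔭 A) (hA.map _) ⟨_, hx, hdet'⟩
      refine le_trans ?_ e3
      refine Nat.card_le_card_of_injective
        (fun B : GP g Cs 𝔮 P A q 𝔭 => (⟨B.1, B.2.1, by rw [← e1]; exact B.2.2.1⟩ :
          {B : Mt g (𝓞 F ⧸ 𝔭) // B.IsSymm ∧ chp (rm 𝔭 A) B = X * rd 𝔭 (h q)}))
        ?_
      intro B B' hBB
      have h9 := Subtype.ext_iff.1 hBB
      exact Subtype.ext h9
  · rw [if_neg (fun hh => hc hh.1), one_mul]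
    have e3 := h3 g (𝓞 F ⧸ 𝔭) hg h2q (rd 𝔭 (P q)) (hPm.map _) (hPi 𝔭 h𝔭.1 h𝔭.2 hc)
      (by rw [hPm.natDegree_map, hPd]) (rm 𝔭 A) (hA.map _) ⟨_, hx, hdet'⟩
    refine le_trans ?_ e3
    refine Nat.card_le_card_of_injective
      (fun B : GP g Cs 𝔮 P A q 𝔭 => (⟨B.1, B.2.1, B.2.2.1⟩ :
        {B : Mt g (𝓞 F ⧸ 𝔭) // B.IsSymm ∧ chp (rm 𝔭 A) B = rd 𝔭 (P q)}))
      ?_
    intro B B' hBB
    have h9 := Subtype.ext_iff.1 hBB
    exact Subtype.ext h9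

lemma card_q (h2 : S_CQN) (h3 : S_CQB) (h4 : S_CQC) (hg : 1 ≤ g) (hW : 2 ^ c + 1 ≤ W)
    (hS : GoodS g W S 𝔮 h P) {A : Mt g (𝓞 F)} (hA : A.IsSymm)
    (hd : ∃ x : 𝓞 F, x ≠ 0 ∧ A.det = (-1) ^ g * x ^ 2 ∧ Ideal.absNorm (Ideal.span {x}) ≤ 2 ^ c)
    {q : ℕ} (hq : q ∈ S) :
    (if q ∈ Cs then 2 else 1) * ∏ 𝔭 ∈ PP F q, Nat.card (GP g Cs 𝔮 P A q 𝔭) ≤
      (q ^ (g * (2 * g + 1))) ^ Module.finrank ℚ F := by
  obtain ⟨hp, hWq, _, h8, hram, hqp, hqm, _⟩ := hS q hq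
  have h1 : ∏ 𝔭 ∈ PP F q, (if 𝔭 = 𝔮 q ∧ q ∈ Cs then 2 else 1) = (if q ∈ Cs then 2 else 1) := by
    by_cases hqC : q ∈ Cs
    · rw [if_pos hqC]
      have h5 : ∏ 𝔭 ∈ PP F q, (if 𝔭 = 𝔮 q ∧ q ∈ Cs then 2 else 1) =
          ∏ 𝔭 ∈ PP F q, (if 𝔭 = 𝔮 q then 2 else 1) := by
        refine Finset.prod_congr rfl fun 𝔭 _ => ?_
        simp only [hqC, and_true]
      rw [h5, Finset.prod_ite_eq' (PP F q) (𝔮 q) (fun _ => 2), if_pos]
      rw [mem_PP hp.ne_zero]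
      exact ⟨hqp, hqm⟩
    · rw [if_neg hqC]
      refine Finset.prod_eq_one fun 𝔭 _ => ?_
      rw [if_neg (fun hh => hqC hh.2)]
  calc (if q ∈ Cs then 2 else 1) * ∏ 𝔭 ∈ PP F q, Nat.card (GP g Cs 𝔮 P A q 𝔭)
      = ∏ 𝔭 ∈ PP F q, ((if 𝔭 = 𝔮 q ∧ q ∈ Cs then 2 else 1) * Nat.card (GP g Cs 𝔮 P A q 𝔭)) := by
        rw [Finset.prod_mul_distrib, h1]
    _ ≤ ∏ 𝔭 ∈ PP F q, Ideal.absNorm 𝔭 ^ (g * (2 * g + 1)) :=
        Finset.prod_le_prod' fun 𝔭 h𝔭 => card_GP h2 h3 h4 hg hW hS hA hd hq h𝔭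
    _ = (∏ 𝔭 ∈ PP F q, Ideal.absNorm 𝔭) ^ (g * (2 * g + 1)) := Finset.prod_pow _ _ _
    _ ≤ (q ^ Module.finrank ℚ F) ^ (g * (2 * g + 1)) :=
        Nat.pow_le_pow_left (prod_PP hp.ne_zero) _
    _ = _ := by rw [← pow_mul, ← pow_mul, mul_comm]

/-! ### The bound with congruences -/

lemma fiber (hC : Cst F C₀) (h2 : S_CQN) (h3 : S_CQB) (h4 : S_CQC) (hg : 1 ≤ g) (hW : 2 ^ c + 1 ≤ W)
    (hS : GoodS g W S 𝔮 h P) (hCs : Cs ⊆ S) (hw : Typ g w)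
    (hQ : ((∏ q ∈ S, q : ℕ) : ℝ) ≤ (2 : ℝ) ^ (2 * (N : ℤ) + 2 * w 0)) (A : Mt g (𝓞 F)) :
    2 ^ Cs.card * (∏ q ∈ S, q ^ (2 * g)) ^ Module.finrank ℚ F *
        {B : Mt g (𝓞 F) | XsetN g N c w S Cs 𝔮 P A B}.ncard ≤
      C₀ ^ dd g * 2 ^ (Module.finrank ℚ F * (2 * N * dd g)) := by
  set d := Module.finrank ℚ F with hd
  rcases Set.eq_empty_or_nonempty {B : Mt g (𝓞 F) | XsetN g N c w S Cs 𝔮 P A B} with he | ⟨B0, hB0⟩
  · rw [he, Set.ncard_empty, mul_zero]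
    exact Nat.zero_le _
  have hB0' : XsetN g N c w S Cs 𝔮 P A B0 := hB0
  have hAs := hB0'.box.sA
  have hAd := det_ne hB0'
  have hAx := hB0'.box.det
  obtain ⟨p0, hp0, h0, hp0w⟩ := exists_p0 hw hAs hAd
  set Q : ℕ := ∏ q ∈ S, q with hQdef
  have hQ1 : 1 ≤ Q := Finset.prod_pos (fun q hq => (hS q hq).1.pos)
  have hw0 : ∀ i, w 0 ≤ w i := fun i => hw.mono (Fin.zero_le i)
  have hE : 0 ≤ 2 * (N : ℤ) + 2 * w 0 := by
    by_contra hcon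
    push Not at hcon
    have h1 : (2 : ℝ) ^ (2 * (N : ℤ) + 2 * w 0) < 1 := zpow_lt_one_of_neg₀ (by norm_num) hcon
    have h2 : (1 : ℝ) ≤ (Q : ℝ) := by exact_mod_cast hQ1
    linarith
  have hQ2 : Q ≤ 2 ^ (2 * (N : ℤ) + 2 * w 0).toNat := by
    have h1 : (2 : ℝ) ^ (2 * (N : ℤ) + 2 * w 0) =
        ((2 ^ (2 * (N : ℤ) + 2 * w 0).toNat : ℕ) : ℝ) := by
      push_cast
      rw [← zpow_natCast, Int.toNat_of_nonneg hE]
    rw [h1] at hQ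
    exact_mod_cast hQ
  set ez : Fin (2 * g + 1) × Fin (2 * g + 1) → ℤ :=
    fun p => 2 * (N : ℤ) + w p.1 + w p.2 with hez
  have hez0 : ∀ p, 0 ≤ ez p := fun p => by
    have h1 := hw0 p.1
    have h2 := hw0 p.2
    show 0 ≤ 2 * (N : ℤ) + w p.1 + w p.2
    omega
  have hQe : ∀ p, Q ≤ 2 ^ (ez p).toNat := fun p => hQ2.trans (Nat.pow_le_pow_right (by norm_num) (by
    have h1 := hw0 p.1
    have h2 := hw0 p.2
    show (2 * (N : ℤ) + 2 * w 0).toNat ≤ (2 * (N : ℤ) + w p.1 + w p.2).toNat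
    omega))
  -- the classes
  let T := ∀ q : {q // q ∈ S}, ∀ 𝔭 : {𝔭 // 𝔭 ∈ PP F q.1}, GP g Cs 𝔮 P A q.1 𝔭.1
  haveI hfinGP : ∀ (q : {q // q ∈ S}) (𝔭 : {𝔭 // 𝔭 ∈ PP F q.1}), Finite (GP g Cs 𝔮 P A q.1 𝔭.1) := by
    intro q 𝔭
    have h5 := (mem_PP (hS q.1 q.2).1.ne_zero).1 𝔭.2
    haveI : Finite (𝓞 F ⧸ 𝔭.1) := finq (ne_bot (hS q.1 q.2).1.ne_zero h5.2)
    infer_instance
  haveI : Finite T := inferInstance
  let f : {B : Mt g (𝓞 F) | XsetN g N c w S Cs 𝔮 P A B} → T := fun B q 𝔭 =>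
    ⟨rm 𝔭.1 B.1, B.2.box.sB.map _,
      B.2.con q.1 q.2 𝔭.1 ((mem_PP (hS q.1 q.2).1.ne_zero).1 𝔭.2).1
        ((mem_PP (hS q.1 q.2).1.ne_zero).1 𝔭.2).2,
      fun hc hqC => by rw [hc]; exact B.2.ndist q.1 hqC⟩
  have hfinB : Finite {B : Mt g (𝓞 F) | XsetN g N c w S Cs 𝔮 P A B} := by
    have h5 : {B : Mt g (𝓞 F) | XsetN g N c w S Cs 𝔮 P A B}.Finite := by
      apply Set.Finite.subset ((fin_pairs (g := g) (N := N) (c := c) (w := w) (S := S) (Cs := Cs) (𝔮 := 𝔮)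
        (P := P) hC).image Prod.snd)
      intro B hB
      exact ⟨(A, B), hB, rfl⟩
    exact h5.to_subtype
  have hfib : ∀ b : T, (Q ^ d) ^ dd g * Nat.card {B // f B = b} ≤
      C₀ ^ dd g * 2 ^ (d * ∑ p ∈ (P2 g).erase p0, (ez p).toNat) := by
    intro b
    rcases isEmpty_or_nonempty {B // f B = b} with hemp | ⟨⟨⟨B1, hB1⟩, hb1⟩⟩
    · rw [Nat.card_of_isEmpty, mul_zero]
      exact Nat.zero_le _
    let U := ∀ p : {p // p ∈ (P2 g).erase p0},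
      {a : 𝓞 F // a - B1 p.1.1 p.1.2 ∈ sp F Q ∧ Bd (a : F) ((2 : ℝ) ^ ez p.1)}
    haveI : ∀ p : {p // p ∈ (P2 g).erase p0},
      Finite {a : 𝓞 F // a - B1 p.1.1 p.1.2 ∈ sp F Q ∧ Bd (a : F) ((2 : ℝ) ^ ez p.1)} :=
      fun p => hC.clf _ _ _ hQ1
    have hcls : ∀ B : {B // f B = b}, ∀ i j, B.1.1 i j - B1 i j ∈ sp F Q := by
      rintro ⟨⟨B, hB⟩, hb⟩ i j
      apply crt (fun q hq => (hS q hq).1)
      intro q hq
      apply mem_sp (hS q hq).1.ne_zero (hS q hq).2.2.2.2.1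
      intro 𝔭 h𝔭 hq𝔭
      have h5 : rm 𝔭 B = rm 𝔭 B1 := by
        have h6 : f ⟨B, hB⟩ = f ⟨B1, hB1⟩ := hb.trans hb1.symm
        exact congrArg (fun t : T => (t ⟨q, hq⟩ ⟨𝔭, (mem_PP (hS q hq).1.ne_zero).2 ⟨h𝔭, hq𝔭⟩⟩).1) h6
      have h7 := congrFun (congrFun h5 i) j
      rw [← Ideal.Quotient.eq_zero_iff_mem, map_sub, sub_eq_zero]
      exact h7
    let Ψ : {B // f B = b} → U := fun B p =>
      ⟨B.1.1 p.1.1 p.1.2, hcls B _ _, B.1.2.box.bB _ _⟩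
    have hΨ : Function.Injective Ψ := by
      rintro ⟨⟨B, hB⟩, hb⟩ ⟨⟨B', hB'⟩, hb'⟩ heq
      apply Subtype.ext
      apply Subtype.ext
      change B = B'
      refine fiber_inj hAs hp0 h0 hB hB' fun p hp => ?_
      exact congrArg (fun t : U => ((t ⟨p, hp⟩).1 : 𝓞 F)) heq
    have h5 := Nat.card_le_card_of_injective Ψ hΨ
    refine (Nat.mul_le_mul_left _ h5).trans ?_
    rw [Nat.card_pi, Finset.prod_coe_sort ((P2 g).erase p0)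
      (fun p => Nat.card {a : 𝓞 F // a - B1 p.1 p.2 ∈ sp F Q ∧ Bd (a : F) ((2 : ℝ) ^ ez p)}),
      Finset.mul_sum, ← Finset.prod_pow_eq_pow_sum, ← card_erase hp0, ← Finset.prod_const,
      ← Finset.prod_const, ← Finset.prod_mul_distrib, ← Finset.prod_mul_distrib]
    exact Finset.prod_le_prod' fun p _ => hC.cls _ _ _ hQ1 (hez0 p) (hQe p)
  have h1 := card_fib f hfib
  rw [Nat.card_coe_set_eq] at h1
  have hT : Nat.card T = ∏ q ∈ S, ∏ 𝔭 ∈ PP F q, Nat.card (GP g Cs 𝔮 P A q 𝔭) := by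
    rw [Nat.card_pi, ← Finset.prod_coe_sort S]
    refine Finset.prod_congr rfl fun q _ => ?_
    rw [Nat.card_pi, ← Finset.prod_coe_sort (PP F q.1)]
  have hcs : 2 ^ Cs.card = ∏ q ∈ S, (if q ∈ Cs then 2 else 1) := by
    rw [Finset.prod_ite_mem, Finset.prod_const, Finset.inter_eq_right.2 hCs]
  have h4' : 2 ^ Cs.card * Nat.card T ≤ (Q ^ (g * (2 * g + 1))) ^ d := by
    rw [hT, hcs, ← Finset.prod_mul_distrib, hQdef, ← Finset.prod_pow,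
      ← Finset.prod_pow]
    exact Finset.prod_le_prod' fun q hq => card_q h2 h3 h4 hg hW hS hAs hAx hq
  have h5 : ∑ p ∈ (P2 g).erase p0, (ez p).toNat ≤ 2 * N * dd g := by
    have e0 := Finset.sum_erase_add (P2 g) (fun p => (ez p).toNat) hp0
    have e1 : ∀ p, (((ez p).toNat : ℕ) : ℤ) = 2 * N + (w p.1 + w p.2) := by
      intro p
      have h1 := hw0 p.1
      have h2 := hw0 p.2
      show (((2 * (N : ℤ) + w p.1 + w p.2).toNat : ℕ) : ℤ) = _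
      omega
    have e2 : ((∑ p ∈ P2 g, (ez p).toNat : ℕ) : ℤ) = 2 * N * (dd g + 1) := by
      rw [Nat.cast_sum, Finset.sum_congr rfl fun p _ => e1 p, Finset.sum_add_distrib, sum_P2 hw,
        Finset.sum_const, card_P2, nsmul_eq_mul, add_zero]
      push_cast
      ring
    have e3 := e1 p0
    have e4 : ((∑ p ∈ (P2 g).erase p0, (ez p).toNat : ℕ) : ℤ) ≤ ((2 * N * dd g : ℕ) : ℤ) := by
      have e5 : ((∑ p ∈ (P2 g).erase p0, (ez p).toNat : ℕ) : ℤ) + (((ez p0).toNat : ℕ) : ℤ) =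
          2 * N * (dd g + 1) := by
        rw [← e2, ← e0]
        push_cast
        ring
      push_cast at e5 ⊢
      push_cast at e3
      linarith
    exact_mod_cast e4
  have hQd : 0 < (Q ^ (g * (2 * g + 1))) ^ d := by positivity
  refine Nat.le_of_mul_le_mul_left ?_ hQd
  set n := {B : Mt g (𝓞 F) | XsetN g N c w S Cs 𝔮 P A B}.ncard with hn
  calc (Q ^ (g * (2 * g + 1))) ^ d * (2 ^ Cs.card * (∏ q ∈ S, q ^ (2 * g)) ^ d * n)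
      = 2 ^ Cs.card * ((Q ^ d) ^ dd g * n) := by
        rw [Finset.prod_pow, ← hQdef]
        have e1 : (Q ^ d) ^ dd g = (Q ^ (g * (2 * g + 1))) ^ d * (Q ^ (2 * g)) ^ d := by
          rw [← mul_pow, ← pow_add, ← pow_mul, ← pow_mul]
          congr 1
          unfold dd
          ring
        rw [e1]
        ring
    _ ≤ 2 ^ Cs.card * (Nat.card T * (C₀ ^ dd g * 2 ^ (d * ∑ p ∈ (P2 g).erase p0, (ez p).toNat))) :=
        Nat.mul_le_mul_left _ h1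
    _ = (2 ^ Cs.card * Nat.card T) *
          (C₀ ^ dd g * 2 ^ (d * ∑ p ∈ (P2 g).erase p0, (ez p).toNat)) := by ring
    _ ≤ (Q ^ (g * (2 * g + 1))) ^ d *
          (C₀ ^ dd g * 2 ^ (d * ∑ p ∈ (P2 g).erase p0, (ez p).toNat)) :=
        Nat.mul_le_mul_right _ h4'
    _ ≤ _ := Nat.mul_le_mul_left _ (Nat.mul_le_mul_left _ (Nat.pow_le_pow_right (by norm_num)
        (Nat.mul_le_mul_left _ h5)))

end prime

end PBN

/-- the trivial bound -/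
theorem pbn0 : S_PBN0 := by
  intro F _ _ g c hg
  obtain ⟨C₀, hC₀⟩ := Pool.Agent.N456.PF.pb0 Pool.Agent.N490.PF.pts F g c hg
  refine ⟨C₀, fun S C 𝔮 P N w hw => ?_⟩
  obtain ⟨h1, h2⟩ := hC₀ ∅ 𝔮 P N w hw
  have h3 : {p : Mt g (𝓞 F) × Mt g (𝓞 F) | XsetN g N c w S C 𝔮 P p.1 p.2} ⊆
      {p : Mt g (𝓞 F) × Mt g (𝓞 F) | Xset g N c w ∅ 𝔮 P p.1 p.2} := fun p hp => PBN.toX hp
  exact ⟨h1.subset h3, (Nat.mul_le_mul_left _ (Set.ncard_le_ncard h3 h1)).trans h2⟩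

/-- the bound -/
theorem pbn (h1 : S_CQN) : S_PBN := by
  intro F _ _ g c hg
  obtain ⟨C₀, hC⟩ := pts Pool.Agent.N490.PF.pts F
  refine ⟨C₀ ^ dd g * (C₀ ^ (dd g + 1) * 2 ^ (Module.finrank ℚ F * c * (dd g + 1))), 2 ^ c + 1,
    fun W S Cs 𝔮 h P hW hS hCs N w hw hQ => ?_⟩
  refine (PBN.assemble hC (fun A => PBN.fiber hC h1 Pool.Agent.N42.PF.cqb
    Pool.Agent.Run7.h13.SR.cqc hg hW hS hCs hw hQ A)).trans (le_of_eq ?_)
  rw [mul_add (Module.finrank ℚ F) (eA g w), pow_add 2 (Module.finrank ℚ F * eA g w)]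
  ring

end Pool.Agent.Run7.h834.DI
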